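import Pool.Agent.H614.KL.Main

/-!
Nonvanishing for images of degree at most `2 m + 1`.
-/

set_option autoImplicit false
set_option linter.unusedSectionVars false
set_option linter.overlappingInstances false

open FF Module Pool.Agent.W602.GT Pool.Agent.W603.LV Pool.Agent.W619.PQ Pool.Agent.Y172
open Pool.Agent.Y184.NT Pool.Agent.H614.BF
open Pool.Agent.H614.MM (TrNe CovLines)

namespace Pool.Agent.H614.KL

section

variable {K : Type} [Field K] [Algebra ℂ K] {N : ℕ}

/-- `Y` is cut out by forms of degree at most `e` -/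
def CutOut (e : ℕ) (x : Fin N → K) : Prop :=
  ∀ (κ : Type) [Field κ] [Algebra ℂ κ] (q : Fin N → κ),
    (∀ (i : ℕ) (F : MvPolynomial (Fin N) ℂ), i ≤ e → F.IsHomogeneous i →
      MvPolynomial.aeval x F = 0 → MvPolynomial.aeval q F = 0) →
    ∀ (i : ℕ) (F : MvPolynomial (Fin N) ℂ), F.IsHomogeneous i →
      MvPolynomial.aeval x F = 0 → MvPolynomial.aeval q F = 0

/-- homogenisation with respect to a coordinate -/
theorem exists_hom (F : MvPolynomial (Fin N) ℂ) (j0 : Fin N) :
    ∃ (i : ℕ) (G : MvPolynomial (Fin N) ℂ), G.IsHomogeneous i ∧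
      ∀ (A : Type) [CommRing A] [Algebra ℂ A] (q : Fin N → A), q j0 = 1 →
        MvPolynomial.aeval q G = MvPolynomial.aeval q F := by
  classical
  refine ⟨F.totalDegree, ∑ k ∈ Finset.range (F.totalDegree + 1),
    MvPolynomial.X j0 ^ (F.totalDegree - k) * MvPolynomial.homogeneousComponent k F, ?_, ?_⟩
  · refine MvPolynomial.IsHomogeneous.sum _ _ _ fun k hk => ?_
    have h1 : k ≤ F.totalDegree := Nat.lt_succ_iff.1 (Finset.mem_range.1 hk)
    have h2 : ((MvPolynomial.X j0 : MvPolynomial (Fin N) ℂ) ^ (F.totalDegree - k)).IsHomogeneous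
        (F.totalDegree - k) := by
      have h3 := (MvPolynomial.isHomogeneous_X ℂ j0).pow (F.totalDegree - k)
      rwa [one_mul] at h3
    have h4 := h2.mul (MvPolynomial.homogeneousComponent_isHomogeneous k F)
    rwa [Nat.sub_add_cancel h1] at h4
  · intro A _ _ q hq
    rw [map_sum]
    have h1 : ∀ k ∈ Finset.range (F.totalDegree + 1),
        MvPolynomial.aeval q (MvPolynomial.X j0 ^ (F.totalDegree - k) *
          MvPolynomial.homogeneousComponent k F) =
        MvPolynomial.aeval q (MvPolynomial.homogeneousComponent k F) := by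
      intro k _
      rw [map_mul, map_pow, MvPolynomial.aeval_X, hq, one_pow, one_mul]
    rw [Finset.sum_congr rfl h1, ← map_sum, MvPolynomial.sum_homogeneousComponent]

end

section

variable {L K : Type} [Field L] [Field K] [Algebra ℂ L] [Algebra ℂ K] [Algebra L K]
  [IsScalarTower ℂ L K] [FiniteDimensional L K] {N m : ℕ}

/-- the traces are sections -/
theorem sec_of_trace [Algebra.EssFiniteType ℂ L] [Algebra.EssFiniteType ℂ K] {n M : ℕ}
    (hL : Algebra.trdeg ℂ L = n) {x : Fin N → K} {y : Fin (M + 1) → L} (hy : NormalModel y)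
    {Δ : Place ℂ L → ℚ} {r : ℕ} {z : Fin n → L} {E : Fin n → Derivation ℂ L L}
    (hz : IsTranscendenceBasis ℂ z) (hE : ∀ i j, E i (z j) = if i = j then 1 else 0)
    {E' : Fin n → Derivation ℂ K K}
    (hE' : ∀ i f, E' i (algebraMap L K f) = algebraMap L K (E i f))
    {ω : (Fin n → Derivation ℂ K K) → K} (hω : AdjointSection y Δ r m x ω)
    {T : (Fin m → Fin N) → L} (hT : ∀ f, T f = Algebra.trace L K ((∏ k, x (f k)) * ω E'))
    (f : Fin m → Fin N) : IsSection y n r (r • Δ) (pForm r z (T f)) := by
  obtain ⟨W, hW⟩ : ∃ W : (Fin n → Derivation ℂ K K) → K,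
    W = fun D => (∏ k, x (f k)) * ω D := ⟨_, rfl⟩
  have hWp : IsPluri r W := by
    intro A D
    rw [hW]
    change (∏ k, x (f k)) * ω (fun i => ∑ j, A i j • D j) = _
    rw [hω.1 A D]
    ring
  refine ⟨pForm_pluri r z _, fun P hP => ?_⟩
  have h1 := trace_ordGe hL hz hE hE' (a := ⌊r * Δ P⌋) W hWp P (hP.divisorial hy hL)
    (fun Q e hQ D hD => by
      rw [hW]
      exact hω.2 P hP Q e hQ f D hD)
  have h2 : T f = Algebra.trace L K (W E') := by
    rw [hT, hW]
  rw [h2]
  refine h1.mono ?_
  have h3 : (r • Δ) P = r * Δ P := by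
    rw [Pi.smul_apply, nsmul_eq_mul]
  rw [h3]
  exact neg_le_neg (Int.floor_le _)

/-- the line is in `Y` -/
theorem covLines_of_line {x : Fin N → K} {j0 : Fin N} (hj0 : x j0 = 1) (hcut : CutOut (m + 1) x)
    {a b : Fin N → L} {τ : K} (hx : ∀ j, x j = algebraMap L K (a j) + τ * algebraMap L K (b j))
    (hdeg : m + 2 ≤ (minpoly L τ).natDegree) (hLI : LinearIndependent L ![a, b])
    (hess : Algebra.EssFiniteType ℂ L) : CovLines x := by
  classical
  have hτ : IsIntegral L τ := Algebra.IsIntegral.isIntegral τ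
  obtain ⟨q, hq⟩ : ∃ q : Fin N → Polynomial L,
    q = fun j => Polynomial.C (a j) + Polynomial.X * Polynomial.C (b j) := ⟨_, rfl⟩
  -- evaluation at `τ`
  have hev : ∀ F : MvPolynomial (Fin N) ℂ,
      Polynomial.aeval τ (MvPolynomial.aeval q F) = MvPolynomial.aeval x F := by
    intro F
    have h1 := MvPolynomial.comp_aeval_apply
      (φ := (Polynomial.aeval τ : Polynomial L →ₐ[L] K).restrictScalars ℂ) q F
    have h2 : (fun j => (Polynomial.aeval τ : Polynomial L →ₐ[L] K).restrictScalars ℂ (q j)) = x := by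
      funext j
      rw [hq]
      change Polynomial.aeval τ (Polynomial.C (a j) + Polynomial.X * Polynomial.C (b j)) = _
      rw [map_add, map_mul, Polynomial.aeval_C, Polynomial.aeval_X, Polynomial.aeval_C, hx]
    rw [h2] at h1
    exact h1
  -- the degree
  have hdegF : ∀ (i : ℕ) (F : MvPolynomial (Fin N) ℂ), F.IsHomogeneous i →
      (MvPolynomial.aeval q F).natDegree ≤ i := by
    intro i F hF
    rw [MvPolynomial.aeval_def, MvPolynomial.eval₂_eq']
    refine Polynomial.natDegree_sum_le_of_forall_le _ _ fun d hd => ?_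
    have h1 : ∑ l, d l = i := by
      have h2 := hF (MvPolynomial.mem_support_iff.1 hd)
      rw [← h2, Finsupp.weight_apply, Finsupp.sum_fintype _ _ fun l => by simp]
      simp
    refine (Polynomial.natDegree_mul_le).trans ?_
    have h3 : (algebraMap ℂ (Polynomial L) (MvPolynomial.coeff d F)).natDegree = 0 := by
      rw [IsScalarTower.algebraMap_apply ℂ L (Polynomial L), Polynomial.algebraMap_eq,
        Polynomial.natDegree_C]
    rw [h3, zero_add]
    refine (Polynomial.natDegree_prod_le _ _).trans ?_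
    rw [← h1]
    refine Finset.sum_le_sum fun l _ => ?_
    refine (Polynomial.natDegree_pow_le).trans ?_
    have h4 : (q l).natDegree ≤ 1 := by
      rw [hq]
      refine (Polynomial.natDegree_add_le _ _).trans (max_le ?_ ?_)
      · rw [Polynomial.natDegree_C]
        omega
      · refine (Polynomial.natDegree_mul_le).trans ?_
        rw [Polynomial.natDegree_X, Polynomial.natDegree_C]
    calc d l * (q l).natDegree ≤ d l * 1 := Nat.mul_le_mul_left _ h4
      _ = d l := mul_one _
  have hsmall : ∀ (i : ℕ) (F : MvPolynomial (Fin N) ℂ), i ≤ m + 1 → F.IsHomogeneous i →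
      MvPolynomial.aeval x F = 0 → MvPolynomial.aeval q F = 0 := by
    intro i F hi hF h0
    by_contra hne
    have h1 : Polynomial.aeval τ (MvPolynomial.aeval q F) = 0 := by
      rw [hev, h0]
    have h2 := Polynomial.natDegree_le_of_dvd (minpoly.dvd L τ h1) hne
    have h3 := hdegF i F hF
    omega
  -- the normalisation
  have hq0 : q j0 = 1 := by
    have h1 : Polynomial.aeval τ (q j0 - 1) = 0 := by
      rw [map_sub, map_one, hq]
      change Polynomial.aeval τ (Polynomial.C (a j0) + Polynomial.X * Polynomial.C (b j0)) - 1 = 0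
      rw [map_add, map_mul, Polynomial.aeval_C, Polynomial.aeval_X, Polynomial.aeval_C, ← hx, hj0,
        sub_self]
    by_contra hne
    have h2 := Polynomial.natDegree_le_of_dvd (minpoly.dvd L τ h1) (sub_ne_zero.2 hne)
    have h3 : (q j0 - 1).natDegree ≤ 1 := by
      rw [hq]
      refine (Polynomial.natDegree_sub_le _ _).trans (max_le ?_ ?_)
      · refine (Polynomial.natDegree_add_le _ _).trans (max_le ?_ ?_)
        · rw [Polynomial.natDegree_C]
          omega
        · refine (Polynomial.natDegree_mul_le).trans ?_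
          rw [Polynomial.natDegree_X, Polynomial.natDegree_C]
      · rw [Polynomial.natDegree_one]
        omega
    omega
  -- the point over the field of rational functions
  have hall : ∀ (i : ℕ) (F : MvPolynomial (Fin N) ℂ), F.IsHomogeneous i →
      MvPolynomial.aeval x F = 0 → MvPolynomial.aeval q F = 0 := by
    intro i F hF h0
    have hinj : Function.Injective (algebraMap (Polynomial L) (RatFunc L)) :=
      RatFunc.algebraMap_injective L
    have hcomp : ∀ G : MvPolynomial (Fin N) ℂ,
        MvPolynomial.aeval (fun j => algebraMap (Polynomial L) (RatFunc L) (q j)) G =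
          algebraMap (Polynomial L) (RatFunc L) (MvPolynomial.aeval q G) := by
      intro G
      exact (MvPolynomial.comp_aeval_apply
        (φ := IsScalarTower.toAlgHom ℂ (Polynomial L) (RatFunc L)) q G).symm
    have h1 := hcut (RatFunc L) (fun j => algebraMap (Polynomial L) (RatFunc L) (q j))
      (fun i' F' hi' hF' h0' => by
        rw [hcomp, hsmall i' F' hi' hF' h0', map_zero]) i F hF h0
    rw [hcomp] at h1
    exact (map_eq_zero_iff _ hinj).1 h1
  refine ⟨L, inferInstance, inferInstance, a, b, hess, hLI, fun F => ?_⟩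
  change _ ↔ MvPolynomial.aeval (fun j => Polynomial.C (a j) + Polynomial.X * Polynomial.C (b j)) F = 0
  have hq' : (fun j => Polynomial.C (a j) + Polynomial.X * Polynomial.C (b j)) = q := hq.symm
  rw [hq']
  constructor
  · intro h0
    obtain ⟨i, G, hG, hGF⟩ := exists_hom F j0
    rw [← hGF _ q hq0]
    refine hall i G hG ?_
    rw [hGF _ x hj0, h0]
  · intro h0
    rw [← hev, h0, map_zero]

/-- **Nonvanishing for images of degree at most `2 m + 1`.** -/
theorem nonv [Algebra.EssFiniteType ℂ K] {n M : ℕ} (hK : Algebra.trdeg ℂ K = n) {x : Fin N → K}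
    (hone : ∃ j, x j = 1) {y : Fin (M + 1) → L} (hy : NormalModel y) {Δ : Place ℂ L → ℚ} {r : ℕ}
    {ω : (Fin n → Derivation ℂ K K) → K} (hω : AdjointSection y Δ r m x ω)
    (htr : TrNe ω ((IntermediateField.adjoin L (Set.range x)).restrictScalars ℂ))
    (hdeg : Module.finrank L (IntermediateField.adjoin L (Set.range x)) ≤ 2 * m + 1) :
    (∃ η : (Fin n → Derivation ℂ L L) → L, IsSection y n r (r • Δ) η ∧ η ≠ 0) ∨
    (m + 2 ≤ Module.finrank L (IntermediateField.adjoin L (Set.range x)) ∧
      (∃ (a b : Fin N → L) (τ : K), LinearIndependent L ![a, b] ∧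
        ∀ j, x j = algebraMap L K (a j) + τ * algebraMap L K (b j)) ∧
      (CutOut (m + 1) x → CovLines x)) := by
  classical
  have hessL : Algebra.EssFiniteType ℂ L := Pool.Agent.TH466.QG.ess_below (K := K)
  have hL : Algebra.trdeg ℂ L = n := Pool.Agent.Y184.NT.trdeg_below (K := K) hK
  have hcL : CharZero L := charZero_of_injective_algebraMap (algebraMap ℂ L).injective
  obtain ⟨j0, hj0⟩ := hone
  obtain ⟨z, E, hz, hE⟩ := Pool.Agent.Y172.exists_crd (k := ℂ) (K := L) hL
  choose E' hE' using fun i => Pool.Agent.Y172.exists_lift (k := ℂ) (K := L) (L := K) hL (E i)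
  have hne := frame_ne hω.1 hz hE hE' htr
  obtain ⟨T, hT⟩ : ∃ T : (Fin m → Fin N) → L,
    ∀ f, T f = Algebra.trace L K ((∏ k, x (f k)) * ω E') := ⟨_, fun _ => rfl⟩
  by_cases hT0 : ∃ f, T f ≠ 0
  · left
    obtain ⟨f, hf⟩ := hT0
    refine ⟨pForm r z (T f), sec_of_trace hL hy hz hE hE' hω hT f, fun h0 => hf ?_⟩
    have h1 : pForm r z (T f) E = 0 := by
      rw [h0]
      rfl
    rwa [pForm_frame r _ hE] at h1
  · right
    push Not at hT0
    obtain ⟨x', hx'⟩ : ∃ x' : Fin N → IntermediateField.adjoin L (Set.range x),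
      ∀ j, (x' j : K) = x j :=
      ⟨fun j => ⟨x j, IntermediateField.subset_adjoin L _ ⟨j, rfl⟩⟩, fun _ => rfl⟩
    have hgen := Pool.Agent.R882.WR.gen_self x' hx'
    have hj0' : x' j0 = 1 := by
      apply Subtype.ext
      rw [hx', hj0]
      rfl
    have hT' : ∀ f, T f = Algebra.trace L (IntermediateField.adjoin L (Set.range x))
        ((∏ k, x' (f k)) *
          Algebra.trace (IntermediateField.adjoin L (Set.range x)) K (ω E')) := by
      intro f
      have h2 : (∏ k, x (f k)) * ω E' = (∏ k, x' (f k)) • ω E' := by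
        rw [Algebra.smul_def]
        congr 1
        rw [map_prod]
        exact Finset.prod_congr rfl fun k _ => (hx' _).symm
      rw [hT, h2, ← Algebra.trace_trace (S := IntermediateField.adjoin L (Set.range x)),
        map_smul, smul_eq_mul]
    obtain ⟨hm2, a, b, τ, hab, hτ, hLI⟩ := Pool.Agent.Y614.NT.stLine Pool.Agent.Y153.NT.stCB L
      (IntermediateField.adjoin L (Set.range x)) N m x' j0 hj0' hgen _ hne
      (fun f => by rw [← hT', hT0]) hdeg
    have hab' : ∀ j, x j = algebraMap L K (a j) + (τ : K) * algebraMap L K (b j) := by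
      intro j
      rw [← hx', hab j]
      rfl
    refine ⟨hm2, ⟨a, b, τ, hLI, hab'⟩, fun hcut => ?_⟩
    refine covLines_of_line hj0 hcut hab' ?_ hLI hessL
    have h1 : (minpoly L (τ : K)) = minpoly L τ :=
      minpoly.algebraMap_eq (algebraMap (IntermediateField.adjoin L (Set.range x)) K).injective τ
    rw [h1]
    have h2 := IntermediateField.adjoin.finrank (K := L) (x := τ) (Algebra.IsIntegral.isIntegral τ)
    rw [hτ, IntermediateField.finrank_top'] at h2
    omega

end

end Pool.Agent.H614.KL
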