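import Pool.Agent.H614.BF.Jet2
import Pool.Agent.H614.BF.Core
import Pool.Agent.H614.KL.Nonv

/-!
Base points of `r (K_W + Δ)`.
-/

set_option autoImplicit false
set_option linter.unusedSectionVars false
set_option linter.overlappingInstances false

open FF Module Pool.Agent.W602.GT Pool.Agent.W603.LV Pool.Agent.W619.PQ
open Pool.Agent.Y184.NT Pool.Agent.H614.BF

namespace Pool.Agent.H614.KL

section

variable {K L : Type} [Field K] [Algebra ℂ K] [Field L] [Algebra ℂ L] [Algebra L K]
  [IsScalarTower ℂ L K] [FiniteDimensional L K] {n m N M : ℕ}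

/-- **Traces generate.** -/
theorem bpf {x : Fin N → K} {y : Fin M → L} (hd : Module.finrank L K ≤ m + 1) {p : Fin M → ℂ}
    (hp : IsPoint y p) {u0 : L} (hu0' : u0 ≠ 0) (S0 : Set K) {lam : K} (hlam : lam ≠ 0)
    {al : Fin N → ℂ} (hal : lam = ∑ i, algebraMap ℂ K (al i) * x i)
    (hint : ∀ j, IsIntegral (BF.localRing y (fun _ : Unit => p)) (x j / lam))
    (h1 : ∀ s ∈ S0, ∀ f : Fin m → Fin N, ∃ h ∈ BF.localRing y (fun _ : Unit => p),
      Algebra.trace L K ((∏ k, x (f k)) * s) = h * u0)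
    (h2 : ∃ (k : ℕ) (c w : Fin k → K), (∀ i, c i ∈ BF.coordRing x y (fun _ : Unit => p) lam) ∧
      (∀ i, w i ∈ S0) ∧ algebraMap L K u0 = ∑ i, c i * (lam ^ m * w i)) :
    ∃ s ∈ S0, ∃ (f : Fin m → Fin N) (h : L), h ≠ 0 ∧
      h⁻¹ ∈ BF.localRing y (fun _ : Unit => p) ∧
      Algebra.trace L K ((∏ k, x (f k)) * s) = h * u0 := by
  classical
  have hcL : CharZero L := charZero_of_injective_algebraMap (algebraMap ℂ L).injective
  by_contra hcon
  have hu0K : algebraMap L K u0 ≠ 0 := by
    rw [Ne, map_eq_zero]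
    exact hu0'
  -- affine coordinates
  obtain ⟨j1, hj1⟩ : ∃ j, p j ≠ 0 := by
    by_contra hc
    push Not at hc
    exact hp.1 (funext hc)
  have hy1 : y j1 ≠ 0 := by
    intro h0
    apply hj1
    have h1 := hp.2 1 (MvPolynomial.X j1) (MvPolynomial.isHomogeneous_X ℂ j1)
      (by rw [MvPolynomial.aeval_X, h0])
    rwa [MvPolynomial.aeval_X] at h1
  obtain ⟨u, hu⟩ : ∃ u : Fin M → L, u = fun j => y j / y j1 := ⟨_, rfl⟩
  obtain ⟨c, hc⟩ : ∃ c : Fin M → ℂ, c = fun j => p j / p j1 := ⟨_, rfl⟩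
  have hyu : y = fun j => y j1 * u j := by
    funext j
    rw [hu]
    exact (mul_div_cancel₀ _ hy1).symm
  have hpc : p = fun j => p j1 * c j := by
    funext j
    rw [hc]
    exact (mul_div_cancel₀ _ hj1).symm
  obtain ⟨O, hO1, hO2⟩ := exists_val u c (fun F hF => by
    rw [hc]
    exact dehom hp hj1 hy1 F (by rw [← hu]; exact hF))
  have hO : ∀ a : ℂ, algebraMap ℂ L a ∈ O := by
    intro a
    have h1 := hO1 (MvPolynomial.C a)
    rwa [MvPolynomial.aeval_C] at h1
  have hconst : ∀ a : ℂ, a ≠ 0 → algebraMap ℂ L a ∉ O.nonunits := by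
    intro a ha h1
    rw [O.mem_nonunits_iff_or] at h1
    rcases h1 with h1 | h1
    · rw [map_eq_zero] at h1
      exact ha h1
    · apply h1
      rw [← map_inv₀]
      exact hO _
  have hunit : ∀ (e : ℕ) (B : MvPolynomial (Fin M) ℂ), B.IsHomogeneous e →
      MvPolynomial.aeval p B ≠ 0 → (MvPolynomial.aeval u B)⁻¹ ∈ O := by
    intro e B hB hBp
    have hBc : MvPolynomial.aeval c B ≠ 0 := by
      rw [hpc, smul_form hB] at hBp
      exact (mul_ne_zero_iff.1 hBp).2
    have h2 : MvPolynomial.aeval u B ∉ O.nonunits := by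
      intro h3
      have h4 := hO2 (B - MvPolynomial.C (MvPolynomial.aeval c B)) (by
        rw [map_sub, MvPolynomial.aeval_C, Algebra.algebraMap_self_apply, sub_self])
      rw [map_sub, MvPolynomial.aeval_C] at h4
      apply hconst _ hBc
      have h5 := sub_mem h3 h4
      rwa [sub_sub_cancel] at h5
    by_contra h4
    exact h2 (O.mem_nonunits_iff_or.2 (Or.inr h4))
  have hquo : ∀ (e : ℕ) (A B : MvPolynomial (Fin M) ℂ), A.IsHomogeneous e → B.IsHomogeneous e →
      MvPolynomial.aeval y A / MvPolynomial.aeval y B =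
        MvPolynomial.aeval u A * (MvPolynomial.aeval u B)⁻¹ := by
    intro e A B hA hB
    conv_lhs => rw [hyu]
    rw [smul_form hA, smul_form hB, mul_div_mul_left _ _ (pow_ne_zero _ hy1), div_eq_mul_inv]
  -- the local ring is in `O`
  have hloc : ∀ h ∈ BF.localRing y (fun _ : Unit => p), h ∈ O := by
    intro h hh
    obtain ⟨e, A, B, hA, hB, hBp, hB0, hAB⟩ := BF.mem_localRing.1 hh
    have h3 : h = MvPolynomial.aeval y A / MvPolynomial.aeval y B := by
      rw [← hAB, mul_div_cancel_left₀ _ hB0]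
    rw [h3, hquo e A B hA hB]
    exact mul_mem (hO1 A) (hunit e B hB (hBp ()))
  have hnon : ∀ h ∈ BF.localRing y (fun _ : Unit => p),
      (h = 0 ∨ h⁻¹ ∉ BF.localRing y (fun _ : Unit => p)) → h ∈ O.nonunits := by
    intro h hh hinv
    obtain ⟨e, A, B, hA, hB, hBp, hB0, hAB⟩ := BF.mem_localRing.1 hh
    have h3 : h = MvPolynomial.aeval y A / MvPolynomial.aeval y B := by
      rw [← hAB, mul_div_cancel_left₀ _ hB0]
    have hAp : MvPolynomial.aeval p A = 0 := by
      by_contra hAp
      have hA0 : MvPolynomial.aeval y A ≠ 0 := fun h0 => hAp (hp.2 e A hA h0)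
      rcases hinv with hinv | hinv
      · rw [hinv, mul_zero] at hAB
        exact hA0 hAB.symm
      · apply hinv
        rw [BF.mem_localRing]
        refine ⟨e, B, A, hB, hA, fun _ => hAp, hA0, ?_⟩
        rw [← hAB]
        have hh0 : h ≠ 0 := by
          rintro rfl
          rw [mul_zero] at hAB
          exact hA0 hAB.symm
        field_simp
    have hAc : MvPolynomial.aeval c A = 0 := by
      rw [hpc, smul_form hA] at hAp
      exact (mul_eq_zero.1 hAp).resolve_left (pow_ne_zero _ hj1)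
    rw [h3, hquo e A B hA hB, O.mem_nonunits_iff, map_mul]
    have h4 := O.mem_nonunits_iff.1 (hO2 A hAc)
    have h5 := (O.valuation_le_one_iff _).2 (hunit e B hB (hBp ()))
    exact (mul_le_mul_right h5 _).trans_lt (by rwa [mul_one])
  -- the coordinates of `V`
  obtain ⟨ξ, hξ⟩ : ∃ ξ : Fin N → K, ξ = fun j => x j / lam := ⟨_, rfl⟩
  have hxξ : x = fun j => lam * ξ j := by
    funext j
    rw [hξ]
    exact (mul_div_cancel₀ _ hlam).symm
  let _ : Algebra O K := ((algebraMap L K).comp (algebraMap O L)).toAlgebra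
  have _ : IsScalarTower O L K := IsScalarTower.of_algebraMap_eq fun _ => rfl
  obtain ⟨ι, hι⟩ : ∃ ι : BF.localRing y (fun _ : Unit => p) →+* O,
      ∀ h, ((ι h : O) : L) = (h : L) :=
    ⟨{ toFun := fun h => ⟨(h : L), hloc h h.2⟩
       map_one' := Subtype.ext rfl
       map_mul' := fun a b => Subtype.ext rfl
       map_zero' := Subtype.ext rfl
       map_add' := fun a b => Subtype.ext rfl }, fun _ => rfl⟩
  have hcomp : (algebraMap O K).comp ι =
      algebraMap (BF.localRing y (fun _ : Unit => p)) K := by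
    ext h
    rw [RingHom.comp_apply, IsScalarTower.algebraMap_apply O L K]
    change algebraMap L K ((ι h : O) : L) = _
    rw [hι]
    rfl
  have hintO : ∀ j, IsIntegral O (ξ j) := by
    intro j
    obtain ⟨P, hP1, hP2⟩ := hint j
    refine ⟨P.map ι, hP1.map _, ?_⟩
    rw [Polynomial.eval₂_map, hcomp, hξ]
    exact hP2
  have honeξ : ∑ i, algebraMap ℂ K (al i) * ξ i = 1 := by
    rw [hξ]
    simp only [← mul_div_assoc]
    rw [← Finset.sum_div, ← hal, div_self hlam]
  have hone : (1 : K) ∈ Submodule.span O (Set.range ξ) := by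
    rw [← honeξ]
    refine Submodule.sum_mem _ fun i _ => ?_
    have h1 : algebraMap ℂ K (al i) * ξ i = (⟨algebraMap ℂ L (al i), hO (al i)⟩ : O) • ξ i := by
      rw [Algebra.smul_def, IsScalarTower.algebraMap_apply O L K,
        IsScalarTower.algebraMap_apply ℂ L K]
      rfl
    rw [h1]
    exact Submodule.smul_mem _ _ (Submodule.subset_span ⟨i, rfl⟩)
  obtain ⟨S, hS⟩ : ∃ S : Set K, S = {s | ∃ w ∈ S0, s = lam ^ m * (w / algebraMap L K u0)} :=
    ⟨_, rfl⟩
  -- the traces
  have hτ : ∀ (f : Fin m → Fin N), ∀ s ∈ S, ∃ t ∈ IsLocalRing.maximalIdeal O,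
      algebraMap O L t = Algebra.trace L K ((∏ k, ξ (f k)) * s) := by
    intro f s hs
    rw [hS] at hs
    obtain ⟨w, hw, rfl⟩ := hs
    obtain ⟨h, hh, htr⟩ := h1 w hw f
    have hval : Algebra.trace L K ((∏ k, ξ (f k)) *
        (lam ^ m * (w / algebraMap L K u0))) = h := by
      have h3 : (∏ k, ξ (f k)) * (lam ^ m * (w / algebraMap L K u0)) =
          u0⁻¹ • ((∏ k, x (f k)) * w) := by
        have h4 : (∏ k, x (f k)) = lam ^ m * ∏ k, ξ (f k) := by
          conv_lhs => rw [hxξ]
          rw [Finset.prod_mul_distrib, Finset.prod_const, Finset.card_univ, Fintype.card_fin]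
        rw [Algebra.smul_def, map_inv₀, h4]
        field_simp
      rw [h3, map_smul, smul_eq_mul, htr]
      field_simp
    have hbad : h = 0 ∨ h⁻¹ ∉ BF.localRing y (fun _ : Unit => p) := by
      by_contra hc'
      push Not at hc'
      exact hcon ⟨w, hw, f, h, hc'.1, hc'.2, htr⟩
    obtain ⟨h5, h6⟩ := O.mem_nonunits_iff_exists_mem_maximalIdeal.1 (hnon h hh hbad)
    exact ⟨⟨_, h5⟩, h6, hval.symm⟩
  -- generation
  have hadj : ∀ z ∈ BF.coordRing x y (fun _ : Unit => p) lam,
      z ∈ Algebra.adjoin O (Set.range ξ) := by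
    intro z hz
    have hz' : z ∈ Algebra.adjoin (BF.localRing y (fun _ : Unit => p))
      (Set.range fun j => x j / lam) := hz
    induction hz' using Algebra.adjoin_induction with
    | mem w hw =>
      obtain ⟨j, rfl⟩ := hw
      exact Algebra.subset_adjoin ⟨j, by rw [hξ]⟩
    | algebraMap r =>
      rw [← hcomp, RingHom.comp_apply]
      exact Subalgebra.algebraMap_mem _ _
    | add a b ha hb h3 h4 => exact add_mem (h3 ha) (h4 hb)
    | mul a b ha hb h3 h4 => exact mul_mem (h3 ha) (h4 hb)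
  have hgg : ∀ I : Ideal (Algebra.adjoin O (Set.range ξ)), I.IsMaximal →
      ∃ b : Algebra.adjoin O (Set.range ξ), b ∉ I ∧
        (b : K) ∈ Submodule.span (Algebra.adjoin O (Set.range ξ)) S := by
    intro I hI
    refine ⟨1, fun h3 => hI.ne_top ((Ideal.eq_top_iff_one I).2 h3), ?_⟩
    obtain ⟨k, cc, w, hcc, hw, hsum⟩ := h2
    have h3 : ((1 : Algebra.adjoin O (Set.range ξ)) : K) =
        ∑ i, cc i * (lam ^ m * (w i / algebraMap L K u0)) := by
      have h4 : ∑ i, cc i * (lam ^ m * (w i / algebraMap L K u0)) =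
          (∑ i, cc i * (lam ^ m * w i)) / algebraMap L K u0 := by
        rw [Finset.sum_div]
        exact Finset.sum_congr rfl fun i _ => by ring
      rw [h4, ← hsum, div_self hu0K]
      rfl
    rw [h3]
    refine Submodule.sum_mem _ fun i _ => ?_
    have h6 : cc i * (lam ^ m * (w i / algebraMap L K u0)) =
        (⟨cc i, hadj _ (hcc i)⟩ : Algebra.adjoin O (Set.range ξ)) •
          (lam ^ m * (w i / algebraMap L K u0)) := by
      rw [Algebra.smul_def]
      rfl
    rw [h6]
    refine Submodule.smul_mem _ _ (Submodule.subset_span ?_)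
    rw [hS]
    exact ⟨w i, hw i, rfl⟩
  obtain ⟨t, ht, ht'⟩ := key ξ hintO hone hd S (Algebra.trace L K) hτ hgg
  have h3 : Algebra.trace L K 1 = algebraMap ℂ L (Module.finrank L K) := by
    have h4 := Algebra.trace_algebraMap (R := L) (S := K) (1 : L)
    rw [map_one] at h4
    rw [h4, nsmul_eq_mul, mul_one, map_natCast]
  rw [h3] at ht'
  have h4 : (Module.finrank L K : ℂ) ≠ 0 := by
    exact_mod_cast (Module.finrank_pos (R := L) (M := K)).ne'
  apply hconst _ h4
  rw [← ht']
  exact O.coe_mem_nonunits_iff.2 ht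

end

end Pool.Agent.H614.KL
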