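import Pool.Agent.H614.KL.Bpf

/-!
Base points of `r (K_W + Δ)`: the theorem.
-/

set_option autoImplicit false
set_option linter.unusedSectionVars false
set_option linter.overlappingInstances false

open FF Module Pool.Agent.W602.GT Pool.Agent.W603.LV Pool.Agent.W619.PQ
open Pool.Agent.Y184.NT Pool.Agent.H614.BF
open Pool.Agent.Y172 (NormalModel IsPrimeDivisor OrdGe)

namespace Pool.Agent.H614.KL

section

variable {L : Type} [Field L] [Algebra ℂ L] {n M : ℕ}

/-- `θ` is a section of `r (K_W + Δ)` at `p` -/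
def LocalSection (y : Fin (M + 1) → L) (Δ : Place ℂ L → ℚ) (r : ℕ) (p : Fin (M + 1) → ℂ)
    (θ : (Fin n → Derivation ℂ L L) → L) : Prop :=
  IsPluri r θ ∧ ∀ P : Place ℂ L, IsPrimeDivisor y P → BF.Through P y p →
    OrdGe P θ (-((r • Δ) P))

/-- `η` generates `r (K_W + Δ)` at `p` -/
def Generates (y : Fin (M + 1) → L) (Δ : Place ℂ L → ℚ) (r : ℕ) (p : Fin (M + 1) → ℂ)
    (η : (Fin n → Derivation ℂ L L) → L) : Prop :=
  (∃ D, η D ≠ 0) ∧ ∀ θ : (Fin n → Derivation ℂ L L) → L, LocalSection y Δ r p θ →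
    ∃ h ∈ BF.localRing y (fun _ : Unit => p), ∀ D, θ D = h * η D

end

section

variable {K L : Type} [Field K] [Algebra ℂ K] [Field L] [Algebra ℂ L] [Algebra L K]
  [IsScalarTower ℂ L K] [FiniteDimensional L K] {n m N M : ℕ}

/-- **Base-point-freeness of `r (K_W + Δ)`.** -/
theorem bpf_pair [Algebra.EssFiniteType ℂ K] (hK : Algebra.trdeg ℂ K = n) {x : Fin N → K}
    {y : Fin (M + 1) → L} (hy : NormalModel y) {Δ : Place ℂ L → ℚ} {r : ℕ}
    (hd : Module.finrank L K ≤ m + 1) {p : Fin (M + 1) → ℂ} (hp : BF.IsPoint y p) {lam : K}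
    (hlam : lam ≠ 0) {al : Fin N → ℂ} (hal : lam = ∑ i, algebraMap ℂ K (al i) * x i)
    (hint : ∀ j, IsIntegral (BF.localRing y (fun _ : Unit => p)) (x j / lam))
    {η : (Fin n → Derivation ℂ L L) → L} (hη : IsPluri r η) (hgen : Generates y Δ r p η)
    {k : ℕ} {c : Fin k → K} {ω : Fin k → (Fin n → Derivation ℂ K K) → K}
    (hc : ∀ i, c i ∈ BF.coordRing x y (fun _ : Unit => p) lam)
    (hω : ∀ i, AdjointSection y Δ r m x (ω i))
    (hsum : ∀ (D : Fin n → Derivation ℂ L L) (D' : Fin n → Derivation ℂ K K),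
      (∀ i f, D' i (algebraMap L K f) = algebraMap L K (D i f)) →
      algebraMap L K (η D) = ∑ i, c i * (lam ^ m * ω i D')) :
    ∃ θ : (Fin n → Derivation ℂ L L) → L, Pool.Agent.Y172.IsSection y n r (r • Δ) θ ∧
      Generates y Δ r p θ := by
  classical
  have hessL : Algebra.EssFiniteType ℂ L := Pool.Agent.TH466.QG.ess_below (K := K)
  have hL : Algebra.trdeg ℂ L = n := Pool.Agent.Y184.NT.trdeg_below (K := K) hK
  obtain ⟨z, E, hz, hE⟩ := Pool.Agent.Y172.exists_crd (k := ℂ) (K := L) hL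
  choose E' hE' using fun i => Pool.Agent.Y172.exists_lift (k := ℂ) (K := L) (L := K) hL (E i)
  have hcoord : ∀ (θ : (Fin n → Derivation ℂ L L) → L), IsPluri r θ → ∀ D,
      θ D = (Matrix.of fun i j => D i (z j)).det ^ r * θ E := fun θ hθ D =>
    Pool.Agent.Y172.pluri_coord hz hE hθ D
  have hu0' : η E ≠ 0 := by
    obtain ⟨D, hD⟩ := hgen.1
    intro h0
    apply hD
    rw [hcoord η hη D, h0, mul_zero]
  obtain ⟨S0, hS0⟩ : ∃ S0 : Set K, S0 = {w | ∃ ω : (Fin n → Derivation ℂ K K) → K,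
      AdjointSection y Δ r m x ω ∧ w = ω E'} := ⟨_, rfl⟩
  -- the global sections
  have hglob : ∀ w ∈ S0, ∀ f : Fin m → Fin N,
      Pool.Agent.Y172.IsSection y n r (r • Δ)
        (pForm r z (Algebra.trace L K ((∏ k, x (f k)) * w))) := by
    intro w hw f
    rw [hS0] at hw
    obtain ⟨ω', hω', rfl⟩ := hw
    exact sec_of_trace (T := fun f => Algebra.trace L K ((∏ k, x (f k)) * ω' E')) hL hy hz hE hE'
      hω' (fun _ => rfl) f
  obtain ⟨w, hw, f, h, hh0, hhinv, htr⟩ := bpf hd hp hu0' S0 hlam hal hint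
    (fun w hw f => by
      have h1 := hglob w hw f
      obtain ⟨h, hh, hD⟩ := hgen.2 _ ⟨h1.1, fun P hP _ => h1.2 P hP⟩
      refine ⟨h, hh, ?_⟩
      have h2 := hD E
      rwa [pForm_frame r _ hE] at h2)
    ⟨k, c, fun i => ω i E', hc, fun i => by
      rw [hS0]
      exact ⟨ω i, hω i, rfl⟩, hsum E E' hE'⟩
  have hθ : ∀ D, pForm r z (Algebra.trace L K ((∏ k, x (f k)) * w)) D = h * η D := by
    intro D
    rw [hcoord _ (pForm_pluri r z _) D, pForm_frame r _ hE, htr, hcoord η hη D]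
    ring
  refine ⟨_, hglob w hw f, ⟨E, ?_⟩, fun θ' hθ' => ?_⟩
  · rw [hθ]
    exact mul_ne_zero hh0 hu0'
  · obtain ⟨h', hh', hD'⟩ := hgen.2 θ' hθ'
    refine ⟨h' * h⁻¹, mul_mem hh' hhinv, fun D => ?_⟩
    rw [hθ, hD']
    field_simp

end

end Pool.Agent.H614.KL
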