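import Pool.Agent.H614.KL.Sec

/-!
Pairs which are images of varieties under maps of small degree.
-/

set_option autoImplicit false
set_option linter.unusedSectionVars false
set_option linter.overlappingInstances false

open FF Module Pool.Agent.W602.GT Pool.Agent.W603.LV Pool.Agent.W619.PQ Pool.Agent.Y172
open Pool.Agent.Y184.NT Pool.Agent.H614.BF
open Pool.Agent.H614.MM (TrNe CovLines)

namespace Pool.Agent.H614.KL

section

variable {K L : Type} [Field K] [Algebra ℂ K] [Field L] [Algebra ℂ L] [Algebra L K]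
  [IsScalarTower ℂ L K] [FiniteDimensional L K] {n N M d m : ℕ}

/-- the traces in a frame -/
theorem frame_ne {r : ℕ} {x : Fin N → K} {ω : (Fin n → Derivation ℂ K K) → K} (hω : IsPluri r ω)
    {z : Fin n → L} {E : Fin n → Derivation ℂ L L} (hz : IsTranscendenceBasis ℂ z)
    (hE : ∀ i j, E i (z j) = if i = j then 1 else 0) {E' : Fin n → Derivation ℂ K K}
    (hE' : ∀ i f, E' i (algebraMap L K f) = algebraMap L K (E i f))
    (htr : TrNe ω ((IntermediateField.adjoin L (Set.range x)).restrictScalars ℂ)) :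
    Algebra.trace (IntermediateField.adjoin L (Set.range x)) K (ω E') ≠ 0 := by
  classical
  have hzK : IsTranscendenceBasis ℂ (fun j => algebraMap L K (z j)) := hz.algebraMap_comp
  have hE'd := Pool.Agent.Y172.lift_dual hE hE'
  obtain ⟨F, hF⟩ : ∃ F : IntermediateField ℂ K,
    F = (IntermediateField.adjoin L (Set.range x)).restrictScalars ℂ := ⟨_, rfl⟩
  rw [← hF] at htr
  obtain ⟨D, D', hD, htr⟩ := htr
  have hLF : ∀ f : L, algebraMap L K f ∈ F := by
    intro f
    rw [hF]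
    exact (IntermediateField.adjoin L (Set.range x)).algebraMap_mem f
  intro h0
  apply htr
  have h1 : Algebra.trace F K (ω E') = 0 := by
    subst hF
    have h2 : ((Algebra.trace (IntermediateField.adjoin L (Set.range x)) K (ω E') :
        IntermediateField.adjoin L (Set.range x)) : K) = 0 := by
      rw [h0]
      rfl
    apply Subtype.ext
    exact h2
  obtain ⟨δ, hδ⟩ : ∃ δ : F, δ = (Matrix.of fun i j => D i ⟨algebraMap L K (z j), hLF _⟩ :
    Matrix (Fin n) (Fin n) F).det ^ r := ⟨_, rfl⟩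
  have h2 : ω D' = δ • ω E' := by
    rw [Pool.Agent.Y172.pluri_coord hzK hE'd hω D', Algebra.smul_def, hδ, map_pow,
      RingHom.map_det]
    congr 1
    congr 2
    ext i j
    rw [RingHom.mapMatrix_apply, Matrix.map_apply, Matrix.of_apply, Matrix.of_apply]
    exact hD i ⟨algebraMap L K (z j), hLF _⟩
  rw [h2, map_smul, h1, smul_zero]

/-- `κ (K_W + Δ) ≥ e` -/
def KodairaGe {L : Type} [Field L] [Algebra ℂ L] {M : ℕ} (y : Fin (M + 1) → L) (n : ℕ)
    (Δ : Place ℂ L → ℚ) (e : ℕ) : Prop :=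
  ∃ m : ℕ, 1 ≤ m ∧ ∃ ω : Fin (e + 1) → (Fin n → Derivation ℂ L L) → L,
    (∀ j, IsSection y n m (m • Δ) (ω j)) ∧
    ∃ E, ω 0 E ≠ 0 ∧ AlgebraicIndependent ℂ (fun i : Fin e => ω i.succ E / ω 0 E)

/-- `ω` is a section of `K_V + f^* (⌊r (K_W + Δ)⌋ - K_W) - m H` -/
def AdjointSection {K L : Type} [Field K] [Algebra ℂ K] [Field L] [Algebra ℂ L] [Algebra L K]
    {n N M : ℕ} (y : Fin (M + 1) → L) (Δ : Place ℂ L → ℚ) (r m : ℕ) (x : Fin N → K)
    (ω : (Fin n → Derivation ℂ K K) → K) : Prop :=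
  IsPluri r ω ∧ ∀ (P : Place ℂ L), IsPrimeDivisor y P → ∀ (Q : Place ℂ K) (e : ℕ), Over Q P e →
    ∀ (f : Fin m → Fin N) (D : Fin n → Derivation ℂ K K), (∀ i, DerReg Q (D i)) →
      (∏ k, x (f k)) * ω D = 0 ∨
        ((r : ℤ) - 1) * ((e : ℤ) - 1) - e * ⌊r * Δ P⌋ ≤ Q.ord ((∏ k, x (f k)) * ω D)

/-- **Images of small degree: pairs.** -/
theorem main [Algebra.EssFiniteType ℂ K] (hK : Algebra.trdeg ℂ K = n) {x : Fin N → K}
    (hone : ∃ j, x j = 1)
    (hd : Algebra.trdeg ℂ (IntermediateField.adjoin ℂ (Set.range x)) = d)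
    {y : Fin (M + 1) → L} (hy : NormalModel y) {Δ : Place ℂ L → ℚ} (hΔ : Effective y Δ) {r : ℕ}
    (hr : 1 ≤ r) {ω : (Fin n → Derivation ℂ K K) → K} (hω : AdjointSection y Δ r m x ω)
    (htr : TrNe ω ((IntermediateField.adjoin L (Set.range x)).restrictScalars ℂ))
    (hdeg : Module.finrank L (IntermediateField.adjoin L (Set.range x)) ≤ m) :
    KodairaGe y n Δ (d - 1) ∧
    (¬ CovLines x ∨ 2 * Module.finrank L (IntermediateField.adjoin L (Set.range x)) ≤ m + 1 →
      KodairaGe y n Δ d ∧ (NumericalLe K y n Δ d →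
        kodairaDim y n Δ = (d : WithBot ℕ) ∧
          ∀ A, Effective y A → Integral y A → numericalDim y n Δ A = (d : EReal))) := by
  classical
  have hessL : Algebra.EssFiniteType ℂ L := Pool.Agent.TH466.QG.ess_below (K := K)
  have hL : Algebra.trdeg ℂ L = n := Pool.Agent.Y184.NT.trdeg_below (K := K) hK
  obtain ⟨j0, hj0⟩ := hone
  obtain ⟨z, E, hz, hE⟩ := Pool.Agent.Y172.exists_crd (k := ℂ) (K := L) hL
  choose E' hE' using fun i => Pool.Agent.Y172.exists_lift (k := ℂ) (K := L) (L := K) hL (E i)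
  have hne := frame_ne hω.1 hz hE hE' htr
  obtain ⟨T, hT⟩ : ∃ T : (Fin m → Fin N) → L,
    ∀ f, T f = Algebra.trace L K ((∏ k, x (f k)) * ω E') := ⟨_, fun _ => rfl⟩
  -- the sections
  have hsec : ∀ f, IsSection y n r (r • Δ) (pForm r z (T f)) := by
    intro f
    obtain ⟨W, hW⟩ : ∃ W : (Fin n → Derivation ℂ K K) → K,
      W = fun D => (∏ k, x (f k)) * ω D := ⟨_, rfl⟩
    have hWp : IsPluri r W := by
      intro A D
      rw [hW]
      change (∏ k, x (f k)) * ω (fun i => ∑ j, A i j • D j) = _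
      rw [hω.1 A D]
      ring
    refine ⟨pForm_pluri r z _, fun P hP => ?_⟩
    have h1 := trace_ordGe hL hz hE hE' (a := ⌊r * Δ P⌋) W hWp P (hP.divisorial hy hL)
      (fun Q e hQ D hD => by
        rw [hW]
        exact hω.2 P hP Q e hQ f D hD)
    have h2 : T f = Algebra.trace L K (W E') := by
      rw [hT, hW]
    rw [h2]
    refine h1.mono ?_
    have h3 : (r • Δ) P = r * Δ P := by
      rw [Pi.smul_apply, nsmul_eq_mul]
    rw [h3]
    exact neg_le_neg (Int.floor_le _)
  have hkod : ∀ e, Ratios T e → KodairaGe y n Δ e := by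
    rintro e ⟨s, hs0, hs⟩
    refine ⟨r, hr, fun j => pForm r z (T (s j)), fun j => hsec _, E, ?_, ?_⟩
    · change pForm r z (T (s 0)) E ≠ 0
      rw [pForm_frame r _ hE]
      exact hs0
    · simp only [pForm_frame r _ hE]
      exact hs
  have hEfr : IsFrame E := fun G =>
    ⟨fun j => G (z j), (Pool.Agent.W73.PG.PULL.expand z hz E hE G).symm⟩
  have hfin : Ratios T d → KodairaGe y n Δ d ∧ (NumericalLe K y n Δ d →
        kodairaDim y n Δ = (d : WithBot ℕ) ∧
          ∀ A, Effective y A → Integral y A → numericalDim y n Δ A = (d : EReal)) := by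
    intro h
    refine ⟨hkod d h, fun hnum => ?_⟩
    obtain ⟨m0, hm0, Ω, hΩ, E0, hE0, hind⟩ := hkod d h
    exact dims hΔ hEfr (upper hy hL hz hE hE' hnum) hm0 hΩ hE0 hind
  rcases ratios_or hL hj0 hd hdeg hne hT with h | ⟨h, hm2, a, b, hLI, hline⟩
  · exact ⟨hkod _ (h.mono (Nat.sub_le _ _)), fun _ => hfin h⟩
  · refine ⟨hkod _ h, fun hcon => ?_⟩
    rcases hcon with hcon | hcon
    · exact absurd ⟨L, inferInstance, inferInstance, a, b, hessL, hLI, hline⟩ hcon
    · omega

end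

end Pool.Agent.H614.KL
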