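import Pool.Agent.H614.MM.Kod

/-!
Traces with algebraically independent ratios.
-/

set_option autoImplicit false
set_option linter.unusedSectionVars false
set_option linter.overlappingInstances false

open FF Module Pool.Agent.W602.GT Pool.Agent.W603.LV Pool.Agent.W619.PQ Pool.Agent.Y172
open Pool.Agent.Y184.NT Pool.Agent.R882.LT Pool.Agent.H614.MM

namespace Pool.Agent.H614.KL

section

variable {L K : Type} [Field L] [Field K] [Algebra ℂ L] [Algebra ℂ K] [Algebra L K]
  [IsScalarTower ℂ L K] [FiniteDimensional L K] [Algebra.EssFiniteType ℂ L]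
  [Algebra.EssFiniteType ℂ K] {n N m d : ℕ}

/-- `T` has `e` algebraically independent ratios -/
def Ratios {ι : Type} (T : ι → L) (e : ℕ) : Prop :=
  ∃ s : Fin (e + 1) → ι, T (s 0) ≠ 0 ∧
    AlgebraicIndependent ℂ (fun i : Fin e => T (s i.succ) / T (s 0))

theorem Ratios.mono {ι : Type} {T : ι → L} {e e' : ℕ} (h : Ratios T e) (he : e' ≤ e) :
    Ratios T e' := by
  obtain ⟨s, h0, hs⟩ := h
  exact ⟨fun i => s (Fin.castLE (Nat.succ_le_succ he) i), h0,
    hs.comp (Fin.castLE he) (Fin.castLE_injective he)⟩

/-- **Algebraically independent ratios of traces, maps of degree at most `m`.** -/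
theorem ratios_or (hL : Algebra.trdeg ℂ L = n) {x : Fin N → K} {j0 : Fin N} (hj0 : x j0 = 1)
    (hd : Algebra.trdeg ℂ (IntermediateField.adjoin ℂ (Set.range x)) = d)
    (hdeg : Module.finrank L (IntermediateField.adjoin L (Set.range x)) ≤ m) {w : K}
    (hne : Algebra.trace (IntermediateField.adjoin L (Set.range x)) K w ≠ 0)
    {T : (Fin m → Fin N) → L} (hTdef : ∀ f, T f = Algebra.trace L K ((∏ k, x (f k)) * w)) :
    Ratios T d ∨
    (Ratios T (d - 1) ∧
      m + 2 ≤ 2 * Module.finrank L (IntermediateField.adjoin L (Set.range x)) ∧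
      ∃ a b : Fin N → L, LinearIndependent L ![a, b] ∧
      ∀ F : MvPolynomial (Fin N) ℂ, MvPolynomial.aeval x F = 0 ↔ restr F a b = 0) := by
  classical
  have hcL : CharZero L := charZero_of_injective_algebraMap (algebraMap ℂ L).injective
  obtain ⟨x', hx'⟩ : ∃ x' : Fin N → IntermediateField.adjoin L (Set.range x),
    ∀ j, (x' j : K) = x j :=
    ⟨fun j => ⟨x j, IntermediateField.subset_adjoin L _ ⟨j, rfl⟩⟩, fun _ => rfl⟩
  have hT : ∀ f, T f = Algebra.trace L (IntermediateField.adjoin L (Set.range x))
      ((∏ k, x' (f k)) *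
        Algebra.trace (IntermediateField.adjoin L (Set.range x)) K w) := by
    intro f
    have h2 : (∏ k, x (f k)) * w = (∏ k, x' (f k)) • w := by
      rw [Algebra.smul_def]
      congr 1
      rw [map_prod]
      exact Finset.prod_congr rfl fun k _ => (hx' _).symm
    rw [hTdef, h2, ← Algebra.trace_trace (S := IntermediateField.adjoin L (Set.range x)),
      map_smul, smul_eq_mul]
  have htw : IsScalarTower ℂ (IntermediateField.adjoin L (Set.range x)) K :=
    IsScalarTower.of_algebraMap_eq fun r => rfl
  obtain ⟨φ, hφ⟩ : ∃ φ : IntermediateField.adjoin L (Set.range x) →ₐ[ℂ] K, ∀ z, φ z = (z : K) :=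
    ⟨IsScalarTower.toAlgHom ℂ (IntermediateField.adjoin L (Set.range x)) K, fun _ => rfl⟩
  have hd' : Algebra.trdeg ℂ (IntermediateField.adjoin ℂ (Set.range x')) = d := by
    rw [← hd]
    have h1 : (IntermediateField.adjoin ℂ (Set.range x')).map φ =
        IntermediateField.adjoin ℂ (Set.range x) := by
      rw [IntermediateField.adjoin_map]
      congr 1
      ext z
      constructor
      · rintro ⟨_, ⟨j, rfl⟩, rfl⟩
        exact ⟨j, ((hφ _).trans (hx' j)).symm⟩
      · rintro ⟨j, rfl⟩
        exact ⟨x' j, ⟨j, rfl⟩, (hφ _).trans (hx' j)⟩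
    have h2 := (IntermediateField.equivMap (IntermediateField.adjoin ℂ (Set.range x')) φ)
    rw [h1] at h2
    exact h2.trdeg_eq
  have hj0' : x' j0 = 1 := by
    apply Subtype.ext
    rw [hx', hj0]
    rfl
  have hgen := Pool.Agent.R882.WR.gen_self x' hx'
  have hT0 : ∃ f, T f ≠ 0 := by
    by_contra hcon
    push Not at hcon
    have h1 := (Pool.Agent.Y614.NT.stLine Pool.Agent.Y153.NT.stCB L
      (IntermediateField.adjoin L (Set.range x)) N m x' j0 hj0' hgen _ hne
      (fun f => by rw [← hT, hcon]) (by omega)).1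
    have h2 : 0 < Module.finrank L (IntermediateField.adjoin L (Set.range x)) :=
      Module.finrank_pos
    omega
  rcases dichotomy (L := L) (K := IntermediateField.adjoin L (Set.range x))
      Pool.Agent.Y141.NT.stCB2 (x := x') (j0 := j0) hj0' hgen hdeg hne hT with hsep |
    ⟨hm2, a, b, j1, hLI, hab, hline, hDab⟩
  · left
    exact exists_ratios_d (d := d) hL hd' T hT0 fun D h1 D' h2 j => hsep D h1 D' h2 j
  · right
    obtain ⟨c, hc⟩ : ∃ c : Fin (N + N) → L, c = Fin.append a b := ⟨_, rfl⟩
    obtain ⟨e, he⟩ : ∃ e : ℕ,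
        Algebra.trdeg ℂ (IntermediateField.adjoin ℂ (Set.range c)) = e := by
      have h1 : Algebra.trdeg ℂ (IntermediateField.adjoin ℂ (Set.range c)) ≤ (N + N : ℕ) :=
        trdeg_adjoin_le c
      exact Cardinal.lt_aleph0.1 (h1.trans_lt Cardinal.natCast_lt_aleph0)
    have hde : d ≤ e + 1 := by
      obtain ⟨t, -, -, ht⟩ := Pool.Agent.R885.exists_mono_basis he
      obtain ⟨ι, hι⟩ : ∃ ι : L →ₐ[ℂ] IntermediateField.adjoin L (Set.range x),
        ∀ z, ι z = algebraMap L (IntermediateField.adjoin L (Set.range x)) z :=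
        ⟨IsScalarTower.toAlgHom ℂ L _, fun _ => rfl⟩
      refine trdeg_lines (k := ℂ) (K := IntermediateField.adjoin L (Set.range x))
        (G := Set.range fun i => ι (c i)) (x := x') (τ := x' j1) ?_ hd'
        (fun i => ι (t i)) ?_
      · intro j
        rw [hab j]
        have h1 : ∀ i, ι (c i) ∈ IntermediateField.adjoin ℂ
            (insert (x' j1) (Set.range fun i => ι (c i))) := fun i =>
          IntermediateField.subset_adjoin _ _ (Set.mem_insert_of_mem _ ⟨i, rfl⟩)
        have ha := h1 (Fin.castAdd N j)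
        have hb := h1 (Fin.natAdd N j)
        have hca : ι (c (Fin.castAdd N j)) =
            algebraMap L (IntermediateField.adjoin L (Set.range x)) (a j) := by
          rw [hι, hc, Fin.append_left]
        have hcb : ι (c (Fin.natAdd N j)) =
            algebraMap L (IntermediateField.adjoin L (Set.range x)) (b j) := by
          rw [hι, hc, Fin.append_right]
        rw [hca] at ha
        rw [hcb] at hb
        refine add_mem ha (mul_mem ?_ hb)
        exact IntermediateField.subset_adjoin _ _ (Set.mem_insert _ _)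
      · rintro _ ⟨i, rfl⟩
        exact isAlgebraic_image ι t (ht _ ⟨i, rfl⟩)
    have hrat : Ratios T e := exists_ratios_d (K := L) (d := e) (x := c) hL he T hT0
      fun D h1 D' h2 j => by
        have h3 : D' (c j) = D (c j) := h2 (c j)
        rw [h3, hc]
        refine Fin.addCases (fun i => ?_) (fun i => ?_) j
        · rw [Fin.append_left]
          exact (hDab D h1 i).1
        · rw [Fin.append_right]
          exact (hDab D h1 i).2
    refine ⟨hrat.mono (by omega), hm2, a, b, hLI, fun F => ?_⟩
    rw [← hline F]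
    have h4 : MvPolynomial.aeval x F = φ (MvPolynomial.aeval x' F) := by
      rw [MvPolynomial.comp_aeval_apply]
      congr 1
      congr 1
      funext j
      exact ((hφ _).trans (hx' j)).symm
    rw [h4]
    constructor
    · intro h
      exact (map_eq_zero φ).1 h
    · intro h
      rw [h, map_zero]

end

end Pool.Agent.H614.KL
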