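import Pool.Agent.H614.KL.Rat
import Pool.Agent.H614.BF.Plu
import Pool.Agent.Y172.R2

/-!
Traces and pull-backs of sections of `r (K_W + Δ)`.
-/

set_option autoImplicit false
set_option linter.unusedSectionVars false
set_option linter.overlappingInstances false

open FF Module Pool.Agent.W602.GT Pool.Agent.W603.LV Pool.Agent.W619.PQ Pool.Agent.Y172
open Pool.Agent.Y184.NT Pool.Agent.H614.BF

namespace Pool.Agent.H614.KL

section

variable {K L : Type} [Field K] [Algebra ℂ K] [Field L] [Algebra ℂ L] [Algebra L K]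
  [IsScalarTower ℂ L K] [FiniteDimensional L K] {n N M : ℕ}

/-- traces of sections of `K_V + f^* (r (K_W + Δ) - K_W)` -/
theorem trace_ordGe [Algebra.EssFiniteType ℂ L] [Algebra.EssFiniteType ℂ K]
    (hn : Algebra.trdeg ℂ L = n) {z : Fin n → L} {E : Fin n → Derivation ℂ L L}
    (hz : IsTranscendenceBasis ℂ z) (hE : ∀ i j, E i (z j) = if i = j then 1 else 0)
    {E' : Fin n → Derivation ℂ K K}
    (hE' : ∀ i f, E' i (algebraMap L K f) = algebraMap L K (E i f)) {r : ℕ} {a : ℤ}
    (W : (Fin n → Derivation ℂ K K) → K) (hW : IsPluri r W) (P : Place ℂ L)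
    (hP : Divisorial n P)
    (hreg : ∀ (Q : Place ℂ K) (e : ℕ), Over Q P e → ∀ D : Fin n → Derivation ℂ K K,
      (∀ i, DerReg Q (D i)) → W D = 0 ∨ ((r : ℤ) - 1) * ((e : ℤ) - 1) - e * a ≤ Q.ord (W D)) :
    OrdGe P (pForm r z (Algebra.trace L K (W E'))) (-(a : ℚ)) := by
  classical
  have hnK : Algebra.trdeg ℂ K = n := Pool.Agent.Y172.trdeg_up (K := L) hn
  obtain ⟨yP, EP, i0, hl⟩ := exists_loc hn hP
  choose EP' hEP' using fun i => exists_lift (L := K) hn (EP i)
  rw [ordGe_iff hl (pForm_pluri r z _)]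
  have hWB : W EP' = algebraMap L K
      ((Matrix.of fun i j => EP i (z j) : Matrix (Fin n) (Fin n) L).det ^ r) * W E' := by
    rw [pluri_coord (hz.algebraMap_comp (A := K)) (lift_dual hE hE') hW EP']
    congr 1
    rw [map_pow, RingHom.map_det]
    congr 2
    ext i j
    rw [Matrix.of_apply, RingHom.mapMatrix_apply, Matrix.map_apply, Matrix.of_apply]
    exact hEP' i (z j)
  have hval : pForm r z (Algebra.trace L K (W E')) EP = Algebra.trace L K (W EP') := by
    rw [hWB, ← Algebra.smul_def, map_smul, smul_eq_mul]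
    rfl
  rw [hval]
  have hπ0 : yP i0 ≠ 0 := hl.ne
  obtain ⟨π, hπd⟩ : ∃ π : L, π = yP i0 ^ a := ⟨_, rfl⟩
  have hπne : π ≠ 0 := by
    rw [hπd]
    exact zpow_ne_zero _ hπ0
  have hπord : P.ord π = a := by
    rw [hπd, P.ord_zpow, hl.unif, mul_one]
  have h3 : Ge P 0 (Algebra.trace L K (algebraMap L K π * W EP')) := by
    refine Pool.Agent.Y692.NT.trace_reg P _ fun Q e hQ => ?_
    have hQd : Divisorial n Q := divisorial_up hQ hP
    have h1 := down_ge hnK hQ hQd hl hEP' hW
      (c := ((r : ℝ) - 1) * ((e : ℝ) - 1) - (e : ℝ) * (a : ℝ))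
      (fun G' hG' => by
        rcases hreg Q e hQ G' hG' with h | h
        · exact Or.inl h
        · right
          exact_mod_cast h)
    rcases h1 with h1 | h1
    · left
      rw [h1, mul_zero]
    · by_cases h0 : W EP' = 0
      · left
        rw [h0, mul_zero]
      right
      have h2 : ((1 - e - e * a : ℤ) : ℝ) ≤ (Q.ord (W EP') : ℝ) := by
        push_cast
        nlinarith
      have h4 : (1 - e - e * a : ℤ) ≤ Q.ord (W EP') := by exact_mod_cast h2
      have h5 : algebraMap L K π ≠ 0 := by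
        rw [Ne, map_eq_zero]
        exact hπne
      rw [Q.ord_mul h5 h0, hQ.2, hπord]
      omega
  rw [← Algebra.smul_def, map_smul, smul_eq_mul] at h3
  by_cases ht : Algebra.trace L K (W EP') = 0
  · exact Or.inl ht
  right
  have h6 := h3.resolve_left (mul_ne_zero hπne ht)
  rw [P.ord_mul hπne ht, hπord] at h6
  have h7 : -a ≤ P.ord (Algebra.trace L K (W EP')) := by omega
  exact_mod_cast h7

/-- pull-backs of sections -/
theorem pull_ordGe [Algebra.EssFiniteType ℂ L] (hL : Algebra.trdeg ℂ L = n) {m : ℕ} {z : Fin n → L}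
    {E : Fin n → Derivation ℂ L L} (hz : IsTranscendenceBasis ℂ z)
    (hE : ∀ i j, E i (z j) = if i = j then 1 else 0) {η : (Fin n → Derivation ℂ L L) → L}
    (hη : IsPluri m η) {Q : Place ℂ K} {P : Place ℂ L} {e : ℕ} (hQP : Over Q P e)
    (hP : Divisorial n P) {c : ℚ} (hc : OrdGe P η c) :
    OrdGe Q (pForm m (fun j => algebraMap L K (z j)) (algebraMap L K (η E)))
      ((m : ℚ) * ((e : ℚ) - 1) + e * c) := by
  intro D hD
  obtain ⟨yP, EP, i0, hl⟩ := exists_loc hL hP
  have h1 : Ge P ⌈c⌉ (η EP) := by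
    rcases (ordGe_iff hl hη).1 hc with h | h
    · exact Or.inl h
    · exact Or.inr (Int.ceil_le.2 h)
  have h2 := Pool.Agent.W73.PG.PULL.form_eq (L := K) z yP hz hl.bas E EP hE hl.dual η hη D
  have h3 := Pool.Agent.Y172.pull_reg hQP hl hD (m := m) (ω := η) h1
  rw [← h2] at h3
  rcases h3 with h3 | h3
  · exact Or.inl h3
  · right
    change _ ≤ ((Q.ord ((Matrix.of fun a b => (D a) ((algebraMap L K) (z b))).det ^ m *
      (algebraMap L K) (η E)) : ℤ) : ℚ)
    have h4 : (((m : ℤ) * ((e : ℤ) - 1) + e * ⌈c⌉ : ℤ) : ℚ) ≤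
        ((Q.ord ((Matrix.of fun a b => (D a) ((algebraMap L K) (z b))).det ^ m *
      (algebraMap L K) (η E)) : ℤ) : ℚ) := by
      exact_mod_cast h3
    refine le_trans ?_ h4
    push_cast
    have h5 : c ≤ (⌈c⌉ : ℚ) := Int.le_ceil c
    have h6 : (0 : ℚ) ≤ e := Nat.cast_nonneg _
    nlinarith

/-- the numerical dimension of `f^* (K_W + Δ)` is at most `d` -/
def NumericalLe (K : Type) {L : Type} [Field K] [Algebra ℂ K] [Field L] [Algebra ℂ L]
    [Algebra L K] {M : ℕ} (y : Fin (M + 1) → L) (n : ℕ) (Δ : Place ℂ L → ℚ) (d : ℕ) : Prop :=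
  ∀ A : Place ℂ L → ℚ, Effective y A → ∃ C : ℕ, ∀ m s : ℕ, 1 ≤ m →
    ∀ θ : Fin s → (Fin n → Derivation ℂ K K) → K, LinearIndependent ℂ θ →
      (∀ l, IsPluri m (θ l) ∧ ∀ (P : Place ℂ L), IsPrimeDivisor y P → ∀ (Q : Place ℂ K) (e : ℕ),
        Over Q P e → OrdGe Q (θ l) (-(m * (e * Δ P - (e - 1)) + e * A P))) → s ≤ C * m ^ d

/-- the upper bound -/
theorem upper [Algebra.EssFiniteType ℂ L] {y : Fin (M + 1) → L} (hy : NormalModel y)
    (hL : Algebra.trdeg ℂ L = n) {Δ : Place ℂ L → ℚ} {z : Fin n → L}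
    {E : Fin n → Derivation ℂ L L} (hz : IsTranscendenceBasis ℂ z)
    (hE : ∀ i j, E i (z j) = if i = j then 1 else 0) {E' : Fin n → Derivation ℂ K K}
    (hE' : ∀ i f, E' i (algebraMap L K f) = algebraMap L K (E i f)) {d : ℕ}
    (h : NumericalLe K y n Δ d) (A : Place ℂ L → ℚ) (hA : Effective y A) :
    ∃ C : ℕ, ∀ m : ℕ, 1 ≤ m → ∀ (s : ℕ) (f : Fin s → L), LinearIndependent ℂ f →
      (∀ i, ∃ ω, IsSection y n m (m • Δ + A) ω ∧ ω E = f i) → s ≤ C * m ^ d := by
  classical
  obtain ⟨C, hC⟩ := h A hA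
  refine ⟨C, fun m hm s f hf hω => ?_⟩
  choose ω hω hωE using hω
  have hframe : ∀ i j, E' i (algebraMap L K (z j)) = if i = j then 1 else 0 := by
    intro i j
    rw [hE', hE]
    split_ifs
    · exact map_one _
    · exact map_zero _
  refine hC m s hm (fun l => pForm m (fun j => algebraMap L K (z j)) (algebraMap L K (ω l E)))
    ?_ fun l => ⟨pForm_pluri m _ _, fun P hP Q e hQP => ?_⟩
  · have h1 : LinearIndependent ℂ fun l => algebraMap L K (f l) :=
      hf.map' (IsScalarTower.toAlgHom ℂ L K).toLinearMap (by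
        rw [LinearMap.ker_eq_bot]
        exact (algebraMap L K).injective)
    refine LinearIndependent.of_comp (LinearMap.proj E') ?_
    have h2 : ((LinearMap.proj E' : ((Fin n → Derivation ℂ K K) → K) →ₗ[ℂ] K) ∘ fun l =>
        pForm m (fun j => algebraMap L K (z j)) (algebraMap L K (ω l E))) =
        fun l => algebraMap L K (f l) := by
      funext l
      change pForm m (fun j => algebraMap L K (z j)) (algebraMap L K (ω l E)) E' = _
      rw [pForm_frame m _ hframe, hωE]
    rw [h2]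
    exact h1
  · have h1 := pull_ordGe hL hz hE (hω l).1 hQP (hP.divisorial hy hL) ((hω l).2 P hP)
    refine h1.mono (le_of_eq ?_)
    have h2 : (m • Δ + A) P = m * Δ P + A P := by
      rw [Pi.add_apply, Pi.smul_apply, nsmul_eq_mul]
    rw [h2]
    ring

end

end Pool.Agent.H614.KL
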