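import Pool.Agent.H614.KL.Nonv

/-!
Uniruledness of images of degree at most `2 m + 1`.
-/

set_option autoImplicit false
set_option linter.unusedSectionVars false
set_option linter.overlappingInstances false

open FF Module Pool.Agent.W602.GT Pool.Agent.W603.LV Pool.Agent.Y172
open Pool.Agent.Y184.NT Pool.Agent.H614.BF
open Pool.Agent.H614.MM (TrNe CovLines)
open Pool.Agent.W619.PQ (IsUniruled)
open Pool.Agent.R882.Over (IsBase FactorsThrough)

namespace Pool.Agent.H614.KL

section

variable {L K : Type} [Field L] [Field K] [Algebra ℂ L] [Algebra ℂ K] [Algebra L K]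
  [IsScalarTower ℂ L K] [FiniteDimensional L K] {n N m : ℕ}

/-- **Canonical forms on images of degree at most `2 m + 1`.** -/
theorem nonv_all [Algebra.EssFiniteType ℂ K] (hK : Algebra.trdeg ℂ K = n) {x : Fin N → K}
    (hone : ∃ j, x j = 1) {ω : (Fin n → Derivation ℂ K K) → K}
    (hω : Pool.Agent.H614.MM.IsSection m x ω)
    (htr : TrNe ω ((IntermediateField.adjoin L (Set.range x)).restrictScalars ℂ))
    (hdeg : Module.finrank L (IntermediateField.adjoin L (Set.range x)) ≤ 2 * m + 1) :
    (∃ η : (Fin n → Derivation ℂ L L) → L, IsPluri 1 η ∧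
      (∀ P : Place ℂ L, Divisorial n P → RegAt P η) ∧ ∃ D, η D ≠ 0) ∨
    (m + 2 ≤ Module.finrank L (IntermediateField.adjoin L (Set.range x)) ∧
      (CutOut (m + 1) x → CovLines x)) := by
  classical
  have hessL : Algebra.EssFiniteType ℂ L := Pool.Agent.TH466.QG.ess_below (K := K)
  have hL : Algebra.trdeg ℂ L = n := Pool.Agent.Y184.NT.trdeg_below (K := K) hK
  have hcL : CharZero L := charZero_of_injective_algebraMap (algebraMap ℂ L).injective
  obtain ⟨j0, hj0⟩ := hone
  obtain ⟨z, E, hz, hE⟩ := Pool.Agent.Y172.exists_crd (k := ℂ) (K := L) hL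
  choose E' hE' using fun i => Pool.Agent.Y172.exists_lift (k := ℂ) (K := L) (L := K) hL (E i)
  have hne := frame_ne hω.1 hz hE hE' htr
  obtain ⟨T, hT⟩ : ∃ T : (Fin m → Fin N) → L,
    ∀ f, T f = Algebra.trace L K ((∏ k, x (f k)) * ω E') := ⟨_, fun _ => rfl⟩
  by_cases hT0 : ∃ f, T f ≠ 0
  · left
    obtain ⟨f, hf⟩ := hT0
    obtain ⟨W, hW⟩ : ∃ W : (Fin n → Derivation ℂ K K) → K,
      W = fun D => (∏ k, x (f k)) * ω D := ⟨_, rfl⟩
    have hWp : IsPluri 1 W := by
      intro A D
      rw [hW]
      change (∏ k, x (f k)) * ω (fun i => ∑ j, A i j • D j) = _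
      rw [hω.1 A D]
      ring
    have h2 : T f = Algebra.trace L K (W E') := by
      rw [hT, hW]
    refine ⟨pForm 1 z (T f), pForm_pluri 1 z _, fun P hP => ?_, E, ?_⟩
    · rw [h2]
      refine trace_regular hL hz hE hE' W hWp P hP fun Q e hQ hQd => ?_
      intro P' e' hQ' D hD
      have h3 := hω.2 f Q hQd D hD
      rw [hW]
      rcases h3 with h3 | h3
      · exact Or.inl h3
      · right
        push_cast
        simpa using h3
    · rw [pForm_frame 1 _ hE]
      exact hf
  · right
    push Not at hT0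
    obtain ⟨x', hx'⟩ : ∃ x' : Fin N → IntermediateField.adjoin L (Set.range x),
      ∀ j, (x' j : K) = x j :=
      ⟨fun j => ⟨x j, IntermediateField.subset_adjoin L _ ⟨j, rfl⟩⟩, fun _ => rfl⟩
    have hgen := Pool.Agent.R882.WR.gen_self x' hx'
    have hj0' : x' j0 = 1 := by
      apply Subtype.ext
      rw [hx', hj0]
      rfl
    have hT' : ∀ f, T f = Algebra.trace L (IntermediateField.adjoin L (Set.range x))
        ((∏ k, x' (f k)) *
          Algebra.trace (IntermediateField.adjoin L (Set.range x)) K (ω E')) := by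
      intro f
      have h2 : (∏ k, x (f k)) * ω E' = (∏ k, x' (f k)) • ω E' := by
        rw [Algebra.smul_def]
        congr 1
        rw [map_prod]
        exact Finset.prod_congr rfl fun k _ => (hx' _).symm
      rw [hT, h2, ← Algebra.trace_trace (S := IntermediateField.adjoin L (Set.range x)),
        map_smul, smul_eq_mul]
    obtain ⟨hm2, a, b, τ, hab, hτ, hLI⟩ := Pool.Agent.Y614.NT.stLine Pool.Agent.Y153.NT.stCB L
      (IntermediateField.adjoin L (Set.range x)) N m x' j0 hj0' hgen _ hne
      (fun f => by rw [← hT', hT0]) hdeg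
    have hab' : ∀ j, x j = algebraMap L K (a j) + (τ : K) * algebraMap L K (b j) := by
      intro j
      rw [← hx', hab j]
      rfl
    refine ⟨hm2, fun hcut => ?_⟩
    refine covLines_of_line hj0 hcut hab' ?_ hLI hessL
    have h1 : (minpoly L (τ : K)) = minpoly L τ :=
      minpoly.algebraMap_eq (algebraMap (IntermediateField.adjoin L (Set.range x)) K).injective τ
    rw [h1]
    have h2 := IntermediateField.adjoin.finrank (K := L) (x := τ) (Algebra.IsIntegral.isIntegral τ)
    rw [hτ, IntermediateField.finrank_top'] at h2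
    omega

/-- For all fields `F` with `ℂ(x) < F ≤ K` there is a section of `K_V - m H` with nonzero trace to
`F`, for some `m` with `s ≤ [K : F] (2 m + 1)`, and `Y` is cut out by forms of degree `≤ m + 1`. -/
def Pos2 (n : ℕ) (x : Fin N → K) (s : ℕ) : Prop :=
  ∀ F : IntermediateField ℂ K, IntermediateField.adjoin ℂ (Set.range x) < F →
    ∃ m : ℕ, s ≤ Module.finrank F K * (2 * m + 1) ∧ CutOut (m + 1) x ∧
      ∃ ω : (Fin n → Derivation ℂ K K) → K, Pool.Agent.H614.MM.IsSection m x ω ∧ TrNe ω F

/-- the case of prime degree -/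
theorem pos2_prime {x : Fin N → K} (hx : IsBase n x)
    (hprime : (Module.finrank (IntermediateField.adjoin ℂ (Set.range x)) K).Prime)
    {ω : (Fin n → Derivation ℂ K K) → K} (hω : Pool.Agent.H614.MM.IsSection m x ω)
    (hne : ∃ D, ω D ≠ 0) (hcut : CutOut (m + 1) x) {s : ℕ} (hs : s ≤ 2 * m + 1) : Pos2 n x s := by
  classical
  have hessK : Algebra.EssFiniteType ℂ K := hx.ess
  intro F hF
  have hsimple := IntermediateField.isSimpleOrder_of_finrank_prime
    (IntermediateField.adjoin ℂ (Set.range x)) K hprime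
  have htop : F = ⊤ := by
    rcases hsimple.eq_bot_or_eq_top (IntermediateField.extendScalars hF.le) with h1 | h1
    · exfalso
      apply not_le_of_gt hF
      intro y hy
      have h2 : y ∈ IntermediateField.extendScalars hF.le := by
        rw [IntermediateField.mem_extendScalars]
        exact hy
      rw [h1, IntermediateField.mem_bot] at h2
      obtain ⟨w, hw⟩ := h2
      rw [← hw]
      exact w.2
    · rw [eq_top_iff]
      intro y _
      have h2 : y ∈ IntermediateField.extendScalars hF.le := by
        rw [h1]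
        trivial
      rw [IntermediateField.mem_extendScalars] at h2
      exact h2
  refine ⟨m, ?_, hcut, ω, hω, Pool.Agent.H614.MM.trNe_top hx.dim hω.1 hne htop⟩
  have hfin : Module.Finite F K := by
    subst htop
    exact Module.Finite.of_surjective (Algebra.linearMap (⊤ : IntermediateField ℂ K) K)
      fun z => ⟨⟨z, trivial⟩, rfl⟩
  have h1 : 0 < Module.finrank F K := Module.finrank_pos
  nlinarith

/-- the geometric genus is zero -/
def Genus0 (L : Type) [Field L] [Algebra ℂ L] (n : ℕ) : Prop :=
  ∀ ω : (Fin n → Derivation ℂ L L) → L, IsPluri 1 ω →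
    (∀ P : Place ℂ L, Divisorial n P → RegAt P ω) → ∀ D, ω D = 0

/-- the map factors, or the geometric genus is positive -/
theorem genus_pos {x : Fin N → K} (hx : IsBase n x) (hl : ¬ CovLines x)
    (hp : Pos2 n x (Module.finrank L K)) (hnf : ¬ FactorsThrough L x) : ¬ Genus0 L n := by
  classical
  have hessK : Algebra.EssFiniteType ℂ K := hx.ess
  have hfin := hx.fin
  have hmul : Module.finrank L (IntermediateField.adjoin L (Set.range x)) *
      Module.finrank (IntermediateField.adjoin L (Set.range x)) K = Module.finrank L K :=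
    Module.finrank_mul_finrank L _ K
  obtain ⟨F, hF⟩ : ∃ F : IntermediateField ℂ K,
    F = (IntermediateField.adjoin L (Set.range x)).restrictScalars ℂ := ⟨_, rfl⟩
  have hle : IntermediateField.adjoin ℂ (Set.range x) ≤ F := by
    rw [hF, IntermediateField.adjoin_le_iff]
    exact IntermediateField.subset_adjoin L _
  have hLF : ∀ f : L, algebraMap L K f ∈ F := by
    intro f
    rw [hF]
    exact (IntermediateField.adjoin L (Set.range x)).algebraMap_mem f
  have hne : IntermediateField.adjoin ℂ (Set.range x) ≠ F := by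
    intro h
    apply hnf
    intro f
    rw [h]
    exact hLF f
  obtain ⟨m, hm, hcut, ω, hω, htr⟩ := hp F (lt_of_le_of_ne hle hne)
  have hfr : Module.finrank F K =
      Module.finrank (IntermediateField.adjoin L (Set.range x)) K := by
    rw [hF]
    rfl
  have hdeg : Module.finrank L (IntermediateField.adjoin L (Set.range x)) ≤ 2 * m + 1 := by
    rw [hfr, ← hmul] at hm
    have h1 : 0 < Module.finrank (IntermediateField.adjoin L (Set.range x)) K :=
      Module.finrank_pos
    rw [mul_comm] at hm
    exact Nat.le_of_mul_le_mul_left hm h1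
  rw [hF] at htr
  rcases nonv_all (L := L) hx.dim hx.one hω htr hdeg with ⟨η, h1, h2, D, hD⟩ | ⟨-, h⟩
  · exact fun h0 => hD (h0 η h1 h2 D)
  · exact absurd (h hcut) hl

/-- `p_g > 0` implies `κ ≥ 0` -/
theorem kod_of_genus (h : ¬ Genus0 L n) : KodGe ℂ L n (fun _ => False) 0 := by
  unfold Genus0 at h
  push Not at h
  obtain ⟨η, h1, h2, D, hD⟩ := h
  refine ⟨1, one_pos, fun _ => η, fun _ => ⟨h1, fun P hP D' hD' => ?_, fun P hP _ => h2 P hP⟩, D,
    hD, ?_⟩
  · exact h2 P hP D' fun i => Pool.Agent.TH466.QG.derReg_of_log (hD' i)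
  · exact algebraicIndependent_empty_type

/-- **Images over a uniruled variety which is not covered by lines.** -/
theorem tfae {x : Fin N → K} (hx : IsBase n x) (hl : ¬ CovLines x)
    (hY : IsUniruled ℂ (IntermediateField.adjoin ℂ (Set.range x)) n)
    (hp : Pos2 n x (Module.finrank L K)) :
    [Genus0 L n, ¬ KodGe ℂ L n (fun _ => False) 0, ¬ Psef ℂ L n (fun _ => False),
      IsUniruled ℂ L n, FactorsThrough L x].TFAE := by
  classical
  have hessK : Algebra.EssFiniteType ℂ K := hx.ess
  have hessL : Algebra.EssFiniteType ℂ L := Pool.Agent.TH466.QG.ess_below (K := K)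
  have hL : Algebra.trdeg ℂ L = n := Pool.Agent.Y184.NT.trdeg_below (K := K) hx.dim
  tfae_have 1 → 5 := by
    intro h
    by_contra hnf
    exact genus_pos hx hl hp hnf h
  tfae_have 5 → 4 := by
    intro hf
    obtain ⟨M, i1, i2, hM, htr, ⟨ψ⟩⟩ := hY
    let φ : L →ₐ[ℂ] IntermediateField.adjoin ℂ (Set.range x) :=
      { toFun := fun f => ⟨algebraMap L K f, hf f⟩
        map_one' := Subtype.ext (map_one _)
        map_mul' := fun f g => Subtype.ext (map_mul _ _ _)
        map_zero' := Subtype.ext (map_zero _)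
        map_add' := fun f g => Subtype.ext (map_add _ _ _)
        commutes' := fun c => Subtype.ext (IsScalarTower.algebraMap_apply ℂ L K c).symm }
    exact ⟨M, i1, i2, hM, htr, ⟨ψ.comp φ⟩⟩
  tfae_have 4 → 3 := fun h h' =>
    (Pool.Agent.W619.Y.uniruled_neg n hL h).1 ((Pool.Agent.TH466.QG.psef_iff n).1 h')
  tfae_have 3 → 2 := fun h h' => h (psef_of_kodGe h')
  tfae_have 2 → 1 := by
    intro h
    by_contra h'
    exact h (kod_of_genus h')
  tfae_finish

end

end Pool.Agent.H614.KL
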